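import Pool.Agent.Work.MP_0f7328_co.OC.Main

/-!
Large stable sets and triangles in solid bricks.

Multigraphs, perfect matchings, tight and separating cuts, bricks and solidity are defined in
`Pool.Agent.Work.MP_0f7328_co.Defs`; stable sets in `Pool.Agent.Work.MP_0f7328_co.TV.Defs`; the graph
`minus H I` in `Pool.Agent.Work.MP_0f7328_co.OC.Defs`.
-/

set_option autoImplicit false

namespace Pool.Agent.Results.MP_0f7328_co.OneCycle

open Pool.Agent.Work.MP_0f7328_co Pool.Agent.Work.MP_0f7328_co.TV
  Pool.Agent.Work.MP_0f7328_co.OC

/-- Let `G` be a solid brick on `n` vertices (parallel edges allowed) and let `H` be its simple graph.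

1. Let `I` be a stable set with `n / 2 - 1` vertices. Every cycle of `H - I` is odd, every vertex
   off the cycle has at most one neighbour in `H - I`, and any two cycles of `H - I` have the same
   edges.
2. For every triangle `abc` there is a stable set `I` with `n / 2 - 1` vertices that avoids `a`, `b`
   and `c`; by the first part `abc` is the only cycle of `H - I`. -/
theorem result (V E : Type) [Fintype V] [DecidableEq V] (G : MGraph V E) (hG : G.IsBrick)
    (hs : G.Solid) :
    (∀ I : Finset V, Stable G.simple I → 2 * I.card + 2 = Fintype.card V →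
      (∀ z (c : (minus G.simple I).Walk z z), c.IsCycle → Odd c.length ∧
        ∀ v, v ∉ c.support → ∀ x y,
          (minus G.simple I).Adj v x → (minus G.simple I).Adj v y → x = y) ∧
      ∀ z w (c : (minus G.simple I).Walk z z) (d : (minus G.simple I).Walk w w),
        c.IsCycle → d.IsCycle → ∀ e, e ∈ c.edges ↔ e ∈ d.edges) ∧
    ∀ a b c, G.simple.Adj a b → G.simple.Adj b c → G.simple.Adj a c →
      ∃ I : Finset V, Stable G.simple I ∧ 2 * I.card + 2 = Fintype.card V ∧
        a ∉ I ∧ b ∉ I ∧ c ∉ I := by
  have h := sb_of_solid hG hs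
  refine ⟨fun I hI hc => one_cycle h hI hc, fun a b c hab hbc hac => ?_⟩
  obtain ⟨I, h1, h2, ha, hb, hc, -⟩ := tri_stable h hab hbc hac
  exact ⟨I, h1, h2, ha, hb, hc⟩

end Pool.Agent.Results.MP_0f7328_co.OneCycle
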