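import Pool.Agent.Work.MP_0f7328_co.RW
import Pool.Agent.Work.MP_0f7328_co.Test
import Pool.Agent.Work.MP_0f7328_co.TimeC
import Pool.Agent.Work.PolyTime.NPClose

/-!
The recognition of solid bricks is in coRP, with exponentially small error.

Multigraphs, perfect matchings, tight and separating cuts, bricks and solidity are defined in
`Pool.Agent.Work.MP_0f7328_co.Defs`; `PolyTimeComputable` (Mathlib's
`Turing.TM2ComputableInPolyTime`) in `Pool.Agent.Work.PolyTime.ETR`.
-/

set_option autoImplicit false

namespace Pool.Agent.Results.MP_0f7328_co.SolidBrickCoRP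

open Pool.Agent.Work.PolyTime Pool.Agent.Work.MP_0f7328_co

/-- The loopless multigraph with vertices `0, ..., n - 1` whose edges are given by a list; parallel
edges are repeated members of the list. -/
def graph (n : ℕ) (E : List (ℕ × ℕ)) (h : WF n E) : MGraph (Fin n) (Fin E.length) where
  ends i := s(⟨(E.get i).1, (h _ (E.get_mem i)).1⟩, ⟨(E.get i).2, (h _ (E.get_mem i)).2.1⟩)
  loopless i hd := (h _ (E.get_mem i)).2.2 (by simpa [Sym2.mk_isDiag_iff] using hd)

/-! Encoding of inputs by bit strings (numbers in unary, so the length of the input is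
polynomially related to the number of vertices and edges). -/

/-- A number is written in unary, `0` as `0` and `n + 1` as `10` followed by `n`. -/
def encNat : ℕ → List Bool
  | 0 => [false]
  | n + 1 => true :: false :: encNat n

/-- A pair of numbers is written by writing `1`, the first and the second number. -/
def encPair (x : ℕ × ℕ) : List Bool := true :: (encNat x.1 ++ encNat x.2)

/-- A list of edges is written by writing `1` before each of its members and `0` at the end. -/
def encList : List (ℕ × ℕ) → List Bool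
  | [] => [false]
  | e :: E => true :: (encPair e ++ encList E)

/-- The bit string of a multigraph. -/
def encode (n : ℕ) (E : List (ℕ × ℕ)) : List Bool := true :: (encNat n ++ encList E)

/-- The inputs of SOLID BRICK: bricks. -/
def Bricks : Set (List Bool) :=
  {w | ∃ (n : ℕ) (E : List (ℕ × ℕ)) (h : WF n E), w = encode n E ∧ (graph n E h).IsBrick}

/-- The yes-instances of SOLID BRICK. -/
def SolidBricks : Set (List Bool) :=
  {w | ∃ (n : ℕ) (E : List (ℕ × ℕ)) (h : WF n E), w = encode n E ∧ (graph n E h).IsBrick ∧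
    (graph n E h).Solid}

/-- The decision problem with set of inputs `P` and set of yes-instances `L` is in coRP, with
exponentially small error: a polynomial-time algorithm that uses `p(|w|)` random bits accepts
every yes-instance with certainty and every other input `w` with probability at most
`2 ^ (-(|w| + 1))`. -/
def InCoRP (P L : Set (List Bool)) : Prop :=
  ∃ (f : List Bool → List Bool) (p : Polynomial ℕ), PolyTimeComputable f ∧ ∀ w ∈ P,
    (w ∈ L → ∀ r : List Bool, r.length = p.eval w.length → f (pairW w r) = [true]) ∧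
    (w ∉ L → {r : List Bool | r.length = p.eval w.length ∧ f (pairW w r) = [true]}.ncard *
      2 ^ (w.length + 1) ≤ 2 ^ p.eval w.length)

/-- The decision problem with set of inputs `P` and set of yes-instances `L` is in P/poly: it is
solved in polynomial time with advice of polynomial length. -/
def InPPoly (P L : Set (List Bool)) : Prop :=
  ∃ (f : List Bool → List Bool) (p : Polynomial ℕ) (a : ℕ → List Bool), PolyTimeComputable f ∧
    (∀ s, (a s).length ≤ p.eval s) ∧ ∀ w ∈ P, w ∈ L ↔ f (pairW w (a w.length)) = [true]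

/-! ### proofs -/

theorem encNat_eq (n : ℕ) : encNat n = (code n).ser := by
  induction n with
  | zero => rfl
  | succ n ih => rw [encNat, ih]; rfl

theorem encList_eq (E : List (ℕ × ℕ)) : encList E = (code E).ser := by
  induction E with
  | nil => rfl
  | cons e E ih => rw [encList, ih, encPair, encNat_eq, encNat_eq]; rfl

theorem encode_eq (n : ℕ) (E : List (ℕ × ℕ)) : encode n E = (code (n, E)).ser := by
  rw [encode, encNat_eq, encList_eq]; rfl

theorem length_encNat (n : ℕ) : (encNat n).length = 2 * n + 1 := by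
  induction n with
  | zero => rfl
  | succ n ih => simp only [encNat, List.length_cons, ih]; omega

theorem le_length (n : ℕ) (E : List (ℕ × ℕ)) : n ≤ (encode n E).length := by
  simp only [encode, List.length_cons, List.length_append, length_encNat]; omega

theorem encode_inj {n n' : ℕ} {E E' : List (ℕ × ℕ)} (h : encode n E = encode n' E') :
    n = n' ∧ E = E' := by
  rw [encode_eq, encode_eq] at h
  have h1 : (code (n, E) : T) = code (n', E') := T.ser_inj h
  have h2 := LawfulCode.inj h1
  exact ⟨congrArg Prod.fst h2, congrArg Prod.snd h2⟩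

theorem graph_simple (n : ℕ) (E : List (ℕ × ℕ)) (h : WF n E) :
    (graph n E h).simple = sgraph n E h := by
  ext u v
  change (∃ i, (graph n E h).ends i = s(u, v)) ↔ (u.1, v.1) ∈ E ∨ (v.1, u.1) ∈ E
  constructor
  · rintro ⟨i, hi⟩
    have hm := E.get_mem i
    rcases Sym2.eq_iff.1 hi with ⟨h1, h2⟩ | ⟨h1, h2⟩
    · left
      have : E.get i = (u.1, v.1) := Prod.ext (congrArg Fin.val h1) (congrArg Fin.val h2)
      rwa [this] at hm
    · right
      have : E.get i = (v.1, u.1) := Prod.ext (congrArg Fin.val h1) (congrArg Fin.val h2)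
      rwa [this] at hm
  · rintro (hm | hm)
    · obtain ⟨i, hi⟩ := List.mem_iff_get.1 hm
      exact ⟨i, Sym2.eq_iff.2 (Or.inl ⟨Fin.ext (congrArg Prod.fst hi),
        Fin.ext (congrArg Prod.snd hi)⟩)⟩
    · obtain ⟨i, hi⟩ := List.mem_iff_get.1 hm
      exact ⟨i, Sym2.eq_iff.2 (Or.inr ⟨Fin.ext (congrArg Prod.fst hi),
        Fin.ext (congrArg Prod.snd hi)⟩)⟩

theorem pow3_spec (m : ℕ) (hm : 0 < m) : ∃ l, pow3 m = 3 ^ l ∧ m ≤ pow3 m ∧ pow3 m ≤ 3 * m := by
  have key : ∀ k : ℕ, ∃ l, (List.range k).foldl (fun s _ => if s < m then 3 * s else s) 1 = 3 ^ l ∧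
      ((List.range k).foldl (fun s _ => if s < m then 3 * s else s) 1 < m → l = k) ∧
      (List.range k).foldl (fun s _ => if s < m then 3 * s else s) 1 ≤ 3 * m := by
    intro k
    induction k with
    | zero => exact ⟨0, by simp, by simp, by simp; omega⟩
    | succ k ih =>
      obtain ⟨l, h1, h2, h3⟩ := ih
      rw [List.range_succ, List.foldl_append, List.foldl_cons, List.foldl_nil]
      split_ifs with h
      · refine ⟨l + 1, by rw [h1]; ring, fun _ => by rw [h2 h], by omega⟩
      · exact ⟨l, h1, fun h' => absurd h' h, h3⟩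
  obtain ⟨l, h1, h2, h3⟩ := key m
  refine ⟨l, h1, ?_, h3⟩
  by_contra hlt
  have h4 := h2 (by unfold pow3 at hlt; omega)
  subst h4
  have h5 : l < 3 ^ l := Nat.lt_pow_self (by norm_num)
  unfold pow3 at hlt
  omega

/-- The algorithm. -/
def alg (x : List Bool × List Bool) : Bool :=
  ((parseW (ℕ × List (ℕ × ℕ)) x.1).bind fun I =>
    some (test (pow3 (x.1.length + 1)) I.1 I.2 x.2)).getD false

theorem ptime_alg : PTime alg := by
  refine PTime.parseTest (β := ℕ × List (ℕ × ℕ))
    (t := fun (x : List Bool × List Bool) I => test (pow3 (x.1.length + 1)) I.1 I.2 x.2)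
    PTime.fst ?_
  have h1 : PTime (fun y : (List Bool × List Bool) × (ℕ × List (ℕ × ℕ)) => y.1.1) :=
    PTime.fst.comp PTime.fst
  exact ptime_test (ptime_pow3 (PTime.succ (PTime.length h1))) (PTime.fst.comp PTime.snd)
    (PTime.snd.comp PTime.snd) (PTime.snd.comp PTime.fst)

theorem alg_encode (n : ℕ) (E : List (ℕ × ℕ)) (r : List Bool) :
    alg (encode n E, r) = test (pow3 ((encode n E).length + 1)) n E r := by
  unfold alg
  simp only
  rw [show parseW (ℕ × List (ℕ × ℕ)) (encode n E) = some (n, E) by
    rw [encode_eq]; exact parseW_ser _]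
  rfl

theorem coRP_of_alg {P L : Set (List Bool)} {V : List Bool × List Bool → Bool} (hV : PTime V)
    (p : Polynomial ℕ) (h : ∀ w ∈ P,
      (w ∈ L → ∀ r : List Bool, r.length = p.eval w.length → V (w, r) = true) ∧
      (w ∉ L → {r : List Bool | r.length = p.eval w.length ∧ V (w, r) = true}.ncard *
        2 ^ (w.length + 1) ≤ 2 ^ p.eval w.length)) : InCoRP P L := by
  refine ⟨fun w => [V (Pool.Agent.Work.MP_0532f7_lc.fs w, Pool.Agent.Work.MP_0532f7_lc.sn w)], p,
    polyTimeComputable_of_PTime_word ?_, fun w hw => ?_⟩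
  · have h1 : PTime (fun w : List Bool =>
        V (Pool.Agent.Work.MP_0532f7_lc.fs w, Pool.Agent.Work.MP_0532f7_lc.sn w)) :=
      hV.comp (PTime.prodMk (PTime.fs PTime.id) (PTime.sn PTime.id))
    exact PTime.cons h1 (PTime.const _)
  · simp only [pairW_eq_pr, Pool.Agent.Work.MP_0532f7_lc.fs_pr,
      Pool.Agent.Work.MP_0532f7_lc.sn_pr, List.cons.injEq, and_true]
    exact h w hw

theorem pPoly_of_coRP {P L : Set (List Bool)} (h : InCoRP P L) : InPPoly P L := by
  classical
  obtain ⟨f, p, hf, h⟩ := h
  have key : ∀ s : ℕ, ∃ a : List Bool, a.length = p.eval s ∧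
      ∀ w ∈ P, w.length = s → (w ∈ L ↔ f (pairW w a) = [true]) := by
    intro s
    by_contra hcon
    push Not at hcon
    -- every word of random bits is bad for some input of length `s`
    set W : Finset (List Bool) := (Pool.Agent.Work.MP_0532f7_lc.words s).filter
      (fun w => w ∈ P ∧ w ∉ L) with hW
    have hsub : {r : List Bool | r.length = p.eval s} ⊆
        ⋃ w ∈ W, {r : List Bool | r.length = p.eval s ∧ f (pairW w r) = [true]} := by
      intro r hr
      obtain ⟨w, hwP, hws, hw⟩ := hcon r hr
      have hwL : w ∉ L := by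
        intro hwL
        rcases hw with ⟨_, h2⟩ | ⟨h1, _⟩
        · exact h2 ((h w hwP).1 hwL r (by rw [hws]; exact hr))
        · exact h1 hwL
      have hacc : f (pairW w r) = [true] := by
        rcases hw with ⟨h1, _⟩ | ⟨_, h2⟩
        · exact absurd h1 hwL
        · exact h2
      refine Set.mem_biUnion (x := w) ?_ ⟨hr, hacc⟩
      rw [hW]
      exact Finset.mem_coe.2 (Finset.mem_filter.2
        ⟨Pool.Agent.Work.MP_0532f7_lc.mem_words.2 hws, hwP, hwL⟩)
    have hfin : ∀ w : List Bool,
        {r : List Bool | r.length = p.eval s ∧ f (pairW w r) = [true]}.Finite :=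
      fun w => finite_words _ _
    have h1 : 2 ^ p.eval s ≤ ∑ w ∈ W,
        {r : List Bool | r.length = p.eval s ∧ f (pairW w r) = [true]}.ncard := by
      rw [← ncard_words (p.eval s)]
      refine (Set.ncard_le_ncard hsub ?_).trans ?_
      · exact W.finite_toSet.biUnion fun w _ => hfin w
      · exact Finset.set_ncard_biUnion_le W _
    have h2 : ∀ w ∈ W, {r : List Bool | r.length = p.eval s ∧ f (pairW w r) = [true]}.ncard *
        2 ^ (s + 1) ≤ 2 ^ p.eval s := by
      intro w hw
      rw [hW, Finset.mem_filter] at hw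
      have hws := Pool.Agent.Work.MP_0532f7_lc.mem_words.1 hw.1
      have := (h w hw.2.1).2 hw.2.2
      rwa [hws] at this
    have h3 : (∑ w ∈ W, {r : List Bool | r.length = p.eval s ∧ f (pairW w r) = [true]}.ncard) *
        2 ^ (s + 1) ≤ 2 ^ s * 2 ^ p.eval s := by
      rw [Finset.sum_mul]
      refine (Finset.sum_le_card_nsmul W _ _ h2).trans ?_
      rw [smul_eq_mul]
      refine Nat.mul_le_mul_right _ ?_
      rw [← Pool.Agent.Work.MP_0532f7_lc.card_words s]
      exact Finset.card_filter_le _ _
    have h4 : 2 ^ p.eval s * 2 ^ (s + 1) ≤ 2 ^ s * 2 ^ p.eval s :=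
      (Nat.mul_le_mul_right _ h1).trans h3
    have h5 : 0 < 2 ^ p.eval s * 2 ^ s := by positivity
    have h6 : 2 ^ p.eval s * 2 ^ (s + 1) = 2 * (2 ^ s * 2 ^ p.eval s) := by ring
    rw [h6] at h4
    have h7 : 0 < 2 ^ s * 2 ^ p.eval s := by positivity
    omega
  choose a ha ha' using key
  exact ⟨f, p, a, hf, fun s => (ha s).le, fun w hw => ha' w.length w hw rfl⟩

theorem solidBricks_coRP : InCoRP Bricks SolidBricks := by
  refine coRP_of_alg ptime_alg (6 * Polynomial.X ^ 2 * (Polynomial.X + 1)) ?_
  rintro w ⟨n, E, hW, rfl, hB⟩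
  have hmem : encode n E ∈ SolidBricks ↔ (graph n E hW).Solid := by
    constructor
    · rintro ⟨n', E', hW', he, -, hS⟩
      obtain ⟨rfl, rfl⟩ := encode_inj he
      exact hS
    · intro hS
      exact ⟨n, E, hW, rfl, hB, hS⟩
  set s := (encode n E).length with hs
  have hns : n ≤ s := le_length n E
  obtain ⟨l, hl, hge, hle⟩ := pow3_spec (s + 1) (by omega)
  have hev : Even n := by
    have := even_card_of_brick hB
    rwa [Fintype.card_fin] at this
  obtain ⟨Q, hd, hQ, ht⟩ := test_spec n l (pow3 (s + 1)) hl E hW hev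
  have hT : (graph n E hW).Solid ↔ Q = 0 := by
    rw [solid_iff _ hB, graph_simple, ← hQ, not_not]
  have hp : (6 * Polynomial.X ^ 2 * (Polynomial.X + 1) : Polynomial ℕ).eval s =
      6 * s ^ 2 * (s + 1) := by
    simp
  rw [hp]
  constructor
  · intro hL r _
    rw [alg_encode, ← hs, ht, hT.1 (hmem.1 hL), map_zero]
  · intro hL
    have hQ0 : Q ≠ 0 := fun h => hL (hmem.2 (hT.2 h))
    have h1 := sz_bits n l (6 * s ^ 2 * (s + 1)) Q hQ0 hd (by
      rw [← hl]
      calc n * n * (2 * pow3 (s + 1)) ≤ s * s * (2 * (3 * (s + 1))) := by gcongr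
        _ = 6 * s ^ 2 * (s + 1) := by ring)
    rw [← hl] at h1
    have h2 : {r : List Bool | r.length = 6 * s ^ 2 * (s + 1) ∧ alg (encode n E, r) = true} =
        {r : List Bool | r.length = 6 * s ^ 2 * (s + 1) ∧ MvPolynomial.aeval
          (fun z => valF (pow3 (s + 1)) (blk (pow3 (s + 1)) r (pidx z))) Q = 0} := by
      ext r
      simp only [Set.mem_setOf_eq]
      rw [alg_encode, ← hs, ht]
    rw [h2]
    generalize {r : List Bool | r.length = 6 * s ^ 2 * (s + 1) ∧ MvPolynomial.aeval
      (fun z => valF (pow3 (s + 1)) (blk (pow3 (s + 1)) r (pidx z))) Q = 0}.ncard = c at h1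
    have h3 : 4 ^ (s + 1) ≤ 4 ^ pow3 (s + 1) := Nat.pow_le_pow_right (by norm_num) hge
    have h4 : n ≤ 2 ^ (s + 1) := hns.trans ((Nat.lt_two_pow_self).le.trans
      (Nat.pow_le_pow_right (by norm_num) (by omega)))
    rcases Nat.eq_zero_or_pos n with h0 | hn
    · rw [h0, zero_mul] at h1
      have : c = 0 := by
        have h5 : 0 < 4 ^ pow3 (s + 1) := by positivity
        rcases Nat.eq_zero_or_pos c with h | h
        · exact h
        · have := Nat.mul_pos h h5
          omega
      rw [this, zero_mul]
      positivity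
    · have h5 : n * (c * 2 ^ (s + 1)) ≤ n * 2 ^ (6 * s ^ 2 * (s + 1)) := by
        calc n * (c * 2 ^ (s + 1)) ≤ 2 ^ (s + 1) * (c * 2 ^ (s + 1)) := by gcongr
          _ = c * 4 ^ (s + 1) := by
            rw [show (4 : ℕ) = 2 * 2 by norm_num, mul_pow]; ring
          _ ≤ c * 4 ^ pow3 (s + 1) := by gcongr
          _ ≤ n * 2 ^ (6 * s ^ 2 * (s + 1)) := h1
      exact Nat.le_of_mul_le_mul_left h5 hn

/-- As a consequence (not part of `result`), SOLID BRICK is in P/poly. -/
theorem solidBricks_pPoly : InPPoly Bricks SolidBricks := pPoly_of_coRP solidBricks_coRP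

/-- SOLID BRICK is in coRP, with exponentially small error. -/
theorem result : InCoRP Bricks SolidBricks := solidBricks_coRP

end Pool.Agent.Results.MP_0f7328_co.SolidBrickCoRP
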