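import Pool.Agent.Work.MP_0f7328_co.TV.AlgMain

/-!
Solid bricks all of whose vertices lie in triangles.

Multigraphs, perfect matchings, tight and separating cuts, bricks and solidity are defined in
`Pool.Agent.Work.MP_0f7328_co.Defs`; stable sets, triangles, wheels, the graph `Q8` and claw-free
graphs in `Pool.Agent.Work.MP_0f7328_co.TV.Defs`; bit strings of multigraphs and the decision problem
in `Pool.Agent.Work.MP_0f7328_co.TV.AlgDefs`.
-/

set_option autoImplicit false

namespace Pool.Agent.Results.MP_0f7328_co.TriangleBricks

open Pool.Agent.Work.MP_0f7328_co Pool.Agent.Work.MP_0f7328_co.TV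

/-- Let `G` be a brick (parallel edges allowed).

1. If every vertex of `G` lies in a triangle then `G` is solid if and only if its simple graph is an
   odd wheel or the graph `Q8` on eight vertices.
2. If every edge of `G` lies in a triangle, or if some vertex is adjacent to all others, then `G` is
   solid if and only if its simple graph is an odd wheel.
3. If `G` is claw-free then it is solid if and only if its simple graph is the wheel with three or
   with five spokes.
4. For bricks all of whose vertices lie in triangles, solidity is decided in polynomial time. -/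
theorem result :
    (∀ (V E : Type) [Fintype V] [DecidableEq V] (G : MGraph V E), G.IsBrick →
      ((∀ v, InTri G.simple v) → (G.Solid ↔
        (∃ k, 1 ≤ k ∧ Nonempty (G.simple ≃g wheel (2 * k + 1))) ∨ Nonempty (G.simple ≃g Q8))) ∧
      (((∀ u v, G.simple.Adj u v → ∃ w, G.simple.Adj u w ∧ G.simple.Adj v w) ∨
        ∃ r, ∀ v, v ≠ r → G.simple.Adj r v) → (G.Solid ↔
          ∃ k, 1 ≤ k ∧ Nonempty (G.simple ≃g wheel (2 * k + 1)))) ∧
      (ClawFree G.simple → (G.Solid ↔
        Nonempty (G.simple ≃g wheel 3) ∨ Nonempty (G.simple ≃g wheel 5)))) ∧
    InPOn TriBricks SolidBricks := by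
  refine ⟨fun V E _ _ G hG => ⟨main hG, ?_, main_claw hG⟩, inP_triBricks⟩
  rintro (h | h)
  · exact main_edges hG h
  · exact main_dom hG h

end Pool.Agent.Results.MP_0f7328_co.TriangleBricks
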